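import Mathlib

set_option autoImplicit false

namespace Pool.Agent.Results.MP_79bc23_co.WidthFive

/-- `K` is a chain cutset for `x`: a chain of elements incomparable to `x` such that `K ∪ {x}`
meets every maximal chain. -/
def ChainCutset {P : Type} [PartialOrder P] (x : P) (K : Set P) : Prop :=
  IsChain (· ≤ ·) K ∧ (∀ y ∈ K, ¬ y ≤ x ∧ ¬ x ≤ y) ∧
    ∀ C : Set P, IsMaxChain (· ≤ ·) C → (C ∩ (K ∪ {x})).Nonempty

def U : List ℕ := [32733, 32182, 31124, 32328, 29072, 27680, 27712, 12416, 16640, 12800, 27648, 26624, 12288, 8192, 16384]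
def KM : List ℕ := [2, 1, 1032, 6, 2056, 5, 4102, 18440, 10240, 2052, 4100, 4112, 18432, 16384, 8192]
def le (a b : Fin 15) : Bool := (U.getD a.val 0).testBit b.val
def kk (a b : Fin 15) : Bool := (KM.getD a.val 0).testBit b.val
def inc (a b : Fin 15) : Bool := !le a b && !le b a

theorem le_r : ∀ a, le a a = true := by decide +kernel
theorem le_t : ∀ a b, le a b = true → ∀ c, le b c = true → le a c = true := by decide +kernel
theorem le_a : ∀ a b, le a b = true → le b a = true → a = b := by decide +kernel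
theorem kk_c : ∀ x a, kk x a = true → ∀ b, kk x b = true → le a b = true ∨ le b a = true := by
  decide +kernel
theorem kk_i : ∀ x a, kk x a = true → ¬ le a x = true ∧ ¬ le x a = true := by decide +kernel

set_option synthInstance.maxSize 100000 in
set_option maxRecDepth 100000 in
theorem loc : ∀ s0 : Bool, 
    ∀ s1 : Bool, (s0 && s1) = false → 
    ∀ s2 : Bool, 
    ∀ s3 : Bool, (s1 && s3) = false → (s2 && s3) = false → 
    ∀ s4 : Bool, (s3 && s4) = false → 
    ∀ s5 : Bool, (s0 && s5) = false → (s2 && s5) = false → (s3 && s5) = false → (s4 && s5) = false → 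
    ∀ s6 : Bool, (s1 && s6) = false → (s2 && s6) = false → (s4 && s6) = false → (s5 && s6) = false → 
    ∀ s7 : Bool, (s3 && s7) = false → (s5 && s7) = false → (s6 && s7) = false → 
    ∀ s8 : Bool, (s3 && s8) = false → (s5 && s8) = false → (s6 && s8) = false → (s7 && s8) = false → 
    ∀ s9 : Bool, (s1 && s9) = false → (s2 && s9) = false → (s4 && s9) = false → (s5 && s9) = false → (s6 && s9) = false → (s7 && s9) = false → (s8 && s9) = false → 
    ∀ s10 : Bool, (s2 && s10) = false → (s4 && s10) = false → (s7 && s10) = false → (s8 && s10) = false → (s9 && s10) = false → 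
    ∀ s11 : Bool, (s4 && s11) = false → (s7 && s11) = false → (s8 && s11) = false → (s9 && s11) = false → 
    ∀ s12 : Bool, (s5 && s12) = false → (s6 && s12) = false → (s8 && s12) = false → (s10 && s12) = false → (s11 && s12) = false → 
    ∀ s13 : Bool, (s8 && s13) = false → 
    ∀ s14 : Bool, (s7 && s14) = false → (s9 && s14) = false → (s12 && s14) = false → (s13 && s14) = false → 
    (∀ b, ![s0, s1, s2, s3, s4, s5, s6, s7, s8, s9, s10, s11, s12, s13, s14] b = true ∨
      ∃ a, ![s0, s1, s2, s3, s4, s5, s6, s7, s8, s9, s10, s11, s12, s13, s14] a = true ∧ inc a b = true) →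
    ∀ x, ∃ y, (kk x y = true ∨ y = x) ∧ ![s0, s1, s2, s3, s4, s5, s6, s7, s8, s9, s10, s11, s12, s13, s14] y = true := by
  decide +kernel

@[reducible] def ord : PartialOrder (Fin 15) where
  le a b := le a b = true
  lt a b := le a b = true ∧ ¬ le b a = true
  le_refl := le_r
  le_trans a b c h := le_t a b h c
  lt_iff_le_not_ge _ _ := Iff.rfl
  le_antisymm := le_a

theorem cut (C : Set (Fin 15)) (h : IsMaxChain (fun a b => le a b = true) C) (x : Fin 15) :
    (C ∩ ({y | kk x y = true} ∪ {x})).Nonempty := by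
  classical
  have hc : ∀ a b : Fin 15, inc a b = true → (decide (a ∈ C) && decide (b ∈ C)) = false := by
    intro a b hi
    simp only [inc, Bool.and_eq_true, Bool.not_eq_true'] at hi
    by_contra hn
    simp only [Bool.not_eq_false, Bool.and_eq_true, decide_eq_true_eq] at hn
    have hab : a ≠ b := by
      rintro rfl
      simp [le_r] at hi
    rcases h.1 hn.1 hn.2 hab with e | e <;> simp [hi.1, hi.2] at e
  have hv : ∀ y : Fin 15, ![decide ((0 : Fin 15) ∈ C), decide ((1 : Fin 15) ∈ C), decide ((2 : Fin 15) ∈ C), decide ((3 : Fin 15) ∈ C), decide ((4 : Fin 15) ∈ C), decide ((5 : Fin 15) ∈ C), decide ((6 : Fin 15) ∈ C), decide ((7 : Fin 15) ∈ C), decide ((8 : Fin 15) ∈ C), decide ((9 : Fin 15) ∈ C), decide ((10 : Fin 15) ∈ C), decide ((11 : Fin 15) ∈ C), decide ((12 : Fin 15) ∈ C), decide ((13 : Fin 15) ∈ C), decide ((14 : Fin 15) ∈ C)] y = decide (y ∈ C) := by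
    intro y
    fin_cases y <;> rfl
  have := loc (decide ((0 : Fin 15) ∈ C)) (decide ((1 : Fin 15) ∈ C)) (hc 0 1 (by decide)) (decide ((2 : Fin 15) ∈ C)) (decide ((3 : Fin 15) ∈ C)) (hc 1 3 (by decide)) (hc 2 3 (by decide)) (decide ((4 : Fin 15) ∈ C)) (hc 3 4 (by decide)) (decide ((5 : Fin 15) ∈ C)) (hc 0 5 (by decide)) (hc 2 5 (by decide)) (hc 3 5 (by decide)) (hc 4 5 (by decide)) (decide ((6 : Fin 15) ∈ C)) (hc 1 6 (by decide)) (hc 2 6 (by decide)) (hc 4 6 (by decide)) (hc 5 6 (by decide)) (decide ((7 : Fin 15) ∈ C)) (hc 3 7 (by decide)) (hc 5 7 (by decide)) (hc 6 7 (by decide)) (decide ((8 : Fin 15) ∈ C)) (hc 3 8 (by decide)) (hc 5 8 (by decide)) (hc 6 8 (by decide)) (hc 7 8 (by decide)) (decide ((9 : Fin 15) ∈ C)) (hc 1 9 (by decide)) (hc 2 9 (by decide)) (hc 4 9 (by decide)) (hc 5 9 (by decide)) (hc 6 9 (by decide)) (hc 7 9 (by decide)) (hc 8 9 (by decide)) (decide ((10 : Fin 15) ∈ C)) (hc 2 10 (by decide)) (hc 4 10 (by decide)) (hc 7 10 (by decide)) (hc 8 10 (by decide)) (hc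 9 10 (by decide)) (decide ((11 : Fin 15) ∈ C)) (hc 4 11 (by decide)) (hc 7 11 (by decide)) (hc 8 11 (by decide)) (hc 9 11 (by decide)) (decide ((12 : Fin 15) ∈ C)) (hc 5 12 (by decide)) (hc 6 12 (by decide)) (hc 8 12 (by decide)) (hc 10 12 (by decide)) (hc 11 12 (by decide)) (decide ((13 : Fin 15) ∈ C)) (hc 8 13 (by decide)) (decide ((14 : Fin 15) ∈ C)) (hc 7 14 (by decide)) (hc 9 14 (by decide)) (hc 12 14 (by decide)) (hc 13 14 (by decide))
  simp only [hv, decide_eq_true_eq] at this
  obtain ⟨y, h1, h2⟩ := this (fun b => by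
    by_contra hn
    push Not at hn
    have : IsChain (fun a b => le a b = true) (insert b C) := h.1.insert fun a ha _ => by
      have := hn.2 a ha
      simp only [inc, ne_eq, Bool.and_eq_true, Bool.not_eq_true', not_and, Bool.not_eq_false] at this
      by_cases e : le a b = true
      · exact Or.inr e
      · exact Or.inl (this (by simpa using e))
    have e := h.2 this (Set.subset_insert _ _)
    exact hn.1 (e ▸ Set.mem_insert _ _)) x
  exact ⟨y, h2, h1⟩

/-- A finite ordered set in which every element has a chain cutset and which has an antichain of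
five elements. -/
theorem result :
    ∃ (P : Type) (_ : Finite P) (_ : PartialOrder P),
      (∀ x : P, ∃ K : Set P, ChainCutset x K) ∧
      ∃ A : Set P, IsAntichain (· ≤ ·) A ∧ A.ncard = 5 := by
  refine ⟨Fin 15, inferInstance, ord, fun x => ⟨{y | kk x y = true}, ?_, ?_, ?_⟩,
    (({5, 6, 7, 8, 9} : Finset (Fin 15)) : Set (Fin 15)), ?_, ?_⟩
  · exact fun a ha b hb _ => kk_c x a ha b hb
  · exact fun y hy => kk_i x y hy
  · exact fun C h => cut C h x
  · have : ∀ a ∈ ({5, 6, 7, 8, 9} : Finset (Fin 15)), ∀ b ∈ ({5, 6, 7, 8, 9} : Finset (Fin 15)),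
        a ≠ b → ¬ le a b = true := by decide +kernel
    exact fun a ha b hb hab => this a ha b hb hab
  · rw [Set.ncard_coe_finset]
    rfl

end Pool.Agent.Results.MP_79bc23_co.WidthFive
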